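import Pool.Agent.Helper73.RT.Defs

/-! Project RT, module A3: lower tail of a binomial variable. -/

set_option autoImplicit false

open Finset

namespace Pool.Agent.Helper73.RT

/-- RT-A3. Lower tail of a binomial variable. -/
theorem lower_tail {E : Type} [Fintype E] [DecidableEq E] {Q : ℕ} (hQ : 0 < Q) (q : ℕ)
    (hq : q ≤ Q) (S : Finset E) (x : ℕ) :
    ({f : E → Fin Q | (S.filter fun e => (f e).val < q).card ≤ x}.ncard : ℝ)
      ≤ 2 ^ x * Real.exp (-((q : ℝ) * S.card / (2 * Q))) * (Q : ℝ) ^ Fintype.card E := by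
  classical
  have hQ' : (0 : ℝ) < Q := by exact_mod_cast hQ
  set g : E → Fin Q → ℝ := fun e c => if e ∈ S ∧ c.val < q then 1 / 2 else 1 with hg
  set A : Finset (E → Fin Q) :=
    Finset.univ.filter fun f => (S.filter fun e => (f e).val < q).card ≤ x with hA
  have hncard : ({f : E → Fin Q | (S.filter fun e => (f e).val < q).card ≤ x}.ncard) = A.card := by
    rw [← Set.ncard_coe_finset]
    congr 1
    ext f
    simp [hA]
  have hprod : ∀ f : E → Fin Q, ∏ e, g e (f e) =
      (1 / 2 : ℝ) ^ (S.filter fun e => (f e).val < q).card := by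
    intro f
    simp only [hg]
    rw [Finset.prod_ite, Finset.prod_const_one, mul_one, Finset.prod_const]
    congr 2
    ext e
    simp
  have hcount : ((Finset.univ : Finset (Fin Q)).filter fun c => c.val < q).card = q := by
    have h1 : ((Finset.univ : Finset (Fin Q)).filter fun c => c.val < q).map
        Fin.valEmbedding = Finset.range q := by
      ext c
      simp only [Finset.mem_map, Finset.mem_filter, Finset.mem_univ, true_and, Fin.valEmbedding_apply,
        Finset.mem_range]
      constructor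
      · rintro ⟨a, h, rfl⟩; exact h
      · intro h; exact ⟨⟨c, lt_of_lt_of_le h hq⟩, h, rfl⟩
    rw [← Finset.card_map, h1, Finset.card_range]
  have hsumg : ∀ e, ∑ c, g e c = if e ∈ S then (Q : ℝ) * (1 - q / (2 * Q)) else Q := by
    intro e
    simp only [hg]
    split_ifs with he
    · simp only [he, true_and]
      rw [Finset.sum_ite, Finset.sum_const, Finset.sum_const, hcount, Finset.filter_not,
        Finset.card_sdiff_of_subset (Finset.filter_subset _ _), hcount, Finset.card_univ,
        Fintype.card_fin, nsmul_eq_mul, nsmul_eq_mul, Nat.cast_sub hq]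
      field_simp
      ring
    · simp [he]
  have htotal : ∑ f : E → Fin Q, ∏ e, g e (f e) =
      (Q : ℝ) ^ Fintype.card E * (1 - q / (2 * Q)) ^ S.card := by
    have h1 := Finset.prod_univ_sum (fun _ : E => (Finset.univ : Finset (Fin Q))) g
    rw [Fintype.piFinset_univ] at h1
    rw [← h1, Finset.prod_congr rfl fun e _ => hsumg e, Finset.prod_ite, Finset.prod_const,
      Finset.prod_const, mul_pow, Finset.filter_mem_eq_inter, Finset.univ_inter,
      Finset.filter_not, Finset.card_sdiff_of_subset (Finset.filter_subset _ _),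
      Finset.filter_mem_eq_inter, Finset.univ_inter, Finset.card_univ]
    have h2 : (Q : ℝ) ^ Fintype.card E = Q ^ S.card * Q ^ (Fintype.card E - S.card) := by
      rw [← pow_add, Nat.add_sub_cancel' (Finset.card_le_univ S)]
    rw [h2]; ring
  have hg0 : ∀ f : E → Fin Q, 0 ≤ ∏ e, g e (f e) := by
    intro f; rw [hprod]; positivity
  have h1 : (A.card : ℝ) * (1 / 2) ^ x ≤ ∑ f : E → Fin Q, ∏ e, g e (f e) := by
    calc (A.card : ℝ) * (1 / 2) ^ x = ∑ f ∈ A, (1 / 2 : ℝ) ^ x := by
          rw [Finset.sum_const, nsmul_eq_mul]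
      _ ≤ ∑ f ∈ A, ∏ e, g e (f e) := by
          refine Finset.sum_le_sum fun f hf => ?_
          rw [hprod]
          rw [hA, Finset.mem_filter] at hf
          exact pow_le_pow_of_le_one (by norm_num) (by norm_num) hf.2
      _ ≤ ∑ f : E → Fin Q, ∏ e, g e (f e) :=
          Finset.sum_le_sum_of_subset_of_nonneg (Finset.subset_univ _) fun f _ _ => hg0 f
  have h2 : (1 - (q : ℝ) / (2 * Q)) ^ S.card ≤ Real.exp (-((q : ℝ) * S.card / (2 * Q))) := by
    have h3 : (1 - (q : ℝ) / (2 * Q)) ≤ Real.exp (-((q : ℝ) / (2 * Q))) := by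
      have := Real.add_one_le_exp (-((q : ℝ) / (2 * Q)))
      linarith
    have h4 : 0 ≤ 1 - (q : ℝ) / (2 * Q) := by
      rw [sub_nonneg, div_le_one (by positivity)]
      have : (q : ℝ) ≤ Q := by exact_mod_cast hq
      linarith
    refine (pow_le_pow_left₀ h4 h3 _).trans (le_of_eq ?_)
    rw [← Real.exp_nat_mul]
    congr 1
    ring
  rw [hncard]
  rw [htotal] at h1
  have h5 : (A.card : ℝ) = 2 ^ x * (A.card * (1 / 2) ^ x) := by
    rw [one_div, inv_pow]
    field_simp
  rw [h5]
  calc (2 : ℝ) ^ x * (A.card * (1 / 2) ^ x)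
      ≤ 2 ^ x * ((Q : ℝ) ^ Fintype.card E * (1 - q / (2 * Q)) ^ S.card) :=
        mul_le_mul_of_nonneg_left h1 (by positivity)
    _ ≤ 2 ^ x * ((Q : ℝ) ^ Fintype.card E * Real.exp (-((q : ℝ) * S.card / (2 * Q)))) := by
        refine mul_le_mul_of_nonneg_left (mul_le_mul_of_nonneg_left h2 (by positivity))
          (by positivity)
    _ = _ := by ring

end Pool.Agent.Helper73.RT
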